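import Pool.Agent.Helper11.M3.Goals3

/-!
# Project M3 (MP_fc6b1e_nt, step 2): the self-dual and unitary cases
-/

set_option autoImplicit false

namespace Pool.Agent.Helper22.M3

/-- The final computation. -/
theorem two_of {k : Type} [Field k] (τ : k ≃+* k) (hτ : ∀ z, τ (τ z) = z)
    {t s c₁ y₁ c₂ y₂ : k} (ht : t ≠ 0) (hs : s ≠ 0) (hst : s * t + τ (s * t) ≠ 0)
    (h1 : c₁ ≠ 0 ∨ y₁ ≠ 0) (h2 : c₂ ≠ 0 ∨ y₂ ≠ 0) (e1 : s * c₁ + τ (t * y₁) = 0)
    (e2 : s * c₂ + τ (t * y₂) = 0) : c₁ ≠ 0 ∧ y₁ ≠ 0 ∧ y₁ * c₂ + τ (c₁ * y₂) ≠ 0 := by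
  have key : ∀ c y : k, (c ≠ 0 ∨ y ≠ 0) → s * c + τ (t * y) = 0 → c ≠ 0 ∧ y ≠ 0 := by
    intro c y h e
    have hc : c ≠ 0 := by
      rintro rfl
      rw [mul_zero, zero_add, map_eq_zero_iff τ τ.injective, mul_eq_zero] at e
      rcases h with h | h
      · exact h rfl
      · exact e.elim ht h
    refine ⟨hc, ?_⟩
    rintro rfl
    rw [mul_zero, map_zero, add_zero, mul_eq_zero] at e
    exact e.elim hs hc
  obtain ⟨hc1, hy1⟩ := key _ _ h1 e1
  obtain ⟨hc2, -⟩ := key _ _ h2 e2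
  refine ⟨hc1, hy1, fun h ↦ ?_⟩
  have e1' : τ s * τ c₁ + t * y₁ = 0 := by
    have := congrArg τ e1
    rwa [map_add, map_mul, hτ, map_zero] at this
  rw [map_mul] at e2 h
  have hc1' : τ c₁ ≠ 0 := (map_ne_zero_iff τ τ.injective).2 hc1
  rw [map_mul] at hst
  refine mul_ne_zero (mul_ne_zero hc1' hc2) hst ?_
  linear_combination τ t * c₂ * e1' + t * τ c₁ * e2 - t * τ t * h

theorem card_sq {k : Type} [Field k] [Finite k] (τ : k ≃+* k) (hτ : ∀ z, τ (τ z) = z)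
    (hne : τ ≠ RingEquiv.refl k) :
    Nat.card {z : k // z + τ z = 0} ^ 2 = Nat.card k := by
  obtain ⟨z₀, hz₀⟩ : ∃ z, τ z ≠ z := by
    by_contra h
    push Not at h
    exact hne (RingEquiv.ext h)
  obtain ⟨w, hw⟩ : ∃ w, w = z₀ - τ z₀ := ⟨_, rfl⟩
  have hw0 : w ≠ 0 := by
    rw [hw]
    exact sub_ne_zero.2 (Ne.symm hz₀)
  have hwτ : τ w = -w := by
    rw [hw, map_sub, hτ]
    ring
  have c1 : Nat.card {z : k // τ z = z} = Nat.card {z : k // z + τ z = 0} := by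
    refine Nat.card_congr ⟨fun z ↦ ⟨w * z.1, ?_⟩, fun z ↦ ⟨w⁻¹ * z.1, ?_⟩, fun z ↦ ?_, fun z ↦ ?_⟩
    · rw [map_mul, hwτ, z.2]
      ring
    · have h := z.2
      rw [map_mul, map_inv₀, hwτ, eq_neg_of_add_eq_zero_right h, inv_neg]
      ring
    · exact Subtype.ext (by simp [hw0])
    · exact Subtype.ext (by simp [hw0])
  let D : k →+ k := AddMonoidHom.id k - (τ : k ≃+* k).toAddEquiv.toAddMonoidHom
  have hD : ∀ z, D z = z - τ z := fun _ ↦ rfl
  have c2 : Nat.card D.ker = Nat.card {z : k // τ z = z} := by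
    refine Nat.card_congr (Equiv.subtypeEquivRight fun z ↦ ?_)
    rw [AddMonoidHom.mem_ker, hD, sub_eq_zero]
    exact eq_comm
  have c3 : Nat.card D.range = Nat.card {z : k // z + τ z = 0} := by
    refine Nat.card_congr (Equiv.subtypeEquivRight fun z ↦ ?_)
    constructor
    · rintro ⟨y, rfl⟩
      rw [hD, map_sub, hτ]
      ring
    · intro hz
      refine ⟨w⁻¹ * z * z₀, ?_⟩
      have hfix : τ (w⁻¹ * z) = w⁻¹ * z := by
        rw [map_mul, map_inv₀, hwτ, eq_neg_of_add_eq_zero_right hz, inv_neg]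
        ring
      rw [hD, map_mul, hfix, ← mul_sub, ← hw]
      field_simp
  have c4 := AddSubgroup.card_mul_index D.ker
  rw [AddSubgroup.index_ker, c2, c1, c3] at c4
  rw [sq, c4]

theorem s_sdl : Pool.Agent.Helper11.M3.S_SDL := by
  intro p _ k _ _ _ τ hτ hp
  by_cases h : τ = RingEquiv.refl k
  · have hp2 : p ≠ 2 := fun h2 ↦ hp h2 h
    subst h
    have hchar : CharP k p := charP_of_injective_algebraMap (algebraMap (ZMod p) k).injective p
    have h2 : (2 : k) ≠ 0 := by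
      intro h2
      have h3 : ((2 : ℕ) : k) = 0 := by exact_mod_cast h2
      rw [CharP.cast_eq_zero_iff k p] at h3
      exact hp2 ((Nat.prime_dvd_prime_iff_eq Fact.out Nat.prime_two).1 h3)
    refine ⟨fun _ ↦ ⊤, Fintype.card k, Fintype.card_pos, fun t _ ↦ ?_, fun _ ↦ rfl,
      fun h ↦ absurd rfl h, fun t s c₁ y₁ c₂ y₂ ht _ hs h1 h3 e1 e2 ↦ ?_⟩
    · rw [AddSubgroup.card_top, Nat.card_eq_fintype_card]
    · refine two_of _ hτ ht hs ?_ h1 h3 (not_not.1 e1) (not_not.1 e2)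
      rw [RingEquiv.refl_apply, ← two_mul]
      exact mul_ne_zero h2 (mul_ne_zero hs ht)
  · let T : k →+ k := AddMonoidHom.id k + (τ : k ≃+* k).toAddEquiv.toAddMonoidHom
    have hT : ∀ z, T z = z + τ z := fun _ ↦ rfl
    let W : Submodule (ZMod p) k := LinearMap.ker (T.toZModLinearMap p)
    have hW : ∀ z, z ∈ W ↔ z + τ z = 0 := fun z ↦ LinearMap.mem_ker
    obtain ⟨C, hC⟩ := Submodule.exists_isCompl W
    have cW : Nat.card W ^ 2 = Nat.card k := by
      rw [← card_sq τ hτ h]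
      exact congrArg (fun m : ℕ ↦ m ^ 2) (Nat.card_congr (Equiv.subtypeEquivRight hW))
    have cC : Nat.card W * Nat.card C = Nat.card k := by
      rw [← Nat.card_prod]
      exact Nat.card_congr (Submodule.prodEquivOfIsCompl W C hC).toEquiv
    have hWpos : 0 < Nat.card W := Nat.card_pos
    have hCW : Nat.card C = Nat.card W :=
      Nat.eq_of_mul_eq_mul_left hWpos (by rw [cC, ← cW, sq])
    refine ⟨fun t ↦ C.toAddSubgroup.map (AddMonoidHom.mulLeft t⁻¹), Nat.card C, Nat.card_pos,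
      fun t ht ↦ ?_, fun h' ↦ absurd h' h, fun _ ↦ ?_, ?_⟩
    · refine (Nat.card_congr (Equiv.ofBijective
        (fun c : C ↦ (⟨t⁻¹ * c.1, c.1, c.2, rfl⟩ :
          C.toAddSubgroup.map (AddMonoidHom.mulLeft t⁻¹))) ⟨?_, ?_⟩)).symm
      · intro c c' hcc
        exact Subtype.ext (mul_left_cancel₀ (inv_ne_zero ht) (congrArg Subtype.val hcc))
      · rintro ⟨_, c, hc, rfl⟩
        exact ⟨⟨c, hc⟩, rfl⟩
    · rw [hCW, cW, Nat.card_eq_fintype_card]
    · rintro t _ c₁ y₁ c₂ y₂ ht ⟨c, hc, rfl⟩ hs h1 h3 e1 e2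
      refine two_of τ hτ ht hs ?_ h1 h3 (not_not.1 e1) (not_not.1 e2)
      have hct : (AddMonoidHom.mulLeft t⁻¹) c * t = c := by
        change t⁻¹ * c * t = c
        field_simp
      rw [hct]
      intro h0
      have : c = 0 := by
        have := (Submodule.disjoint_def.1 hC.disjoint) c ((hW c).2 h0) hc
        exact this
      apply hs
      change t⁻¹ * c = 0
      rw [this, mul_zero]

end Pool.Agent.Helper22.M3
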