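import Pool.Agent.Helper17.PP0.EX5
import Pool.Agent.Helper11.M3.Goals4b
import Pool.Agent.Helper22.PP.CDEC

/-!
# Packet M3-X_EX5 (MP_fc6b1e_nt): `Z_EX5` for `HypW`
-/

namespace Pool.Agent.Helper22.M3

open Finset Pool.Agent.Helper17.PP Pool.Agent.Helper17.PP0.EX5

open Classical in
/-- **X_EX5**. -/
theorem x_ex5_of (hdec : C_DEC) : Pool.Agent.Helper11.M3.X_EX5 := by
  intro p _ B B₀ k U Λ C _ _ _ _ _ _ _ _ _ _ _ S ψ g K hH E ε hE hε
  have hE' : (0 : ℝ) < E := by exact_mod_cast hE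
  have hl0 : 0 < Real.log 2 := Real.log_pos (by norm_num)
  have hN : ∀ q : B, (0 : ℝ) < S.N q := by
    intro q
    have := S.two_le q
    exact_mod_cast (by omega : 0 < S.N q)
  set ρ : ℝ := Real.exp (-(Real.log 2 / (2 * E))) with hρ
  have hρ0 : 0 < ρ := Real.exp_pos _
  have hρ1 : ρ < 1 := by
    rw [hρ, Real.exp_lt_one_iff, neg_lt_zero]
    positivity
  have hK : (1 : ℝ) ≤ K := by exact_mod_cast hH.one_le
  have hρ2 : 0 < 1 - ρ := by linarith
  set C0 : ℝ := K ^ 3 * Real.exp (8 * K) / (1 - ρ) with hC0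
  have hC0' : 0 < C0 := by positivity
  obtain ⟨n, hn⟩ := exists_pow_lt_of_lt_one (div_pos hε hC0') hρ1
  refine ⟨max n 1, fun j₀ hj X hX P ↦ ?_⟩
  have hj1 : 1 ≤ j₀ := (le_max_right _ _).trans hj
  have hρj : ρ ^ j₀ ≤ ε / C0 :=
    (pow_le_pow_of_le_one hρ0.le hρ1.le ((le_max_left _ _).trans hj)).trans hn.le
  have hX0 : 0 < X := by linarith
  have hg : 0 < g X := lt_of_lt_of_le zero_lt_one (hH.g_one X)
  set F : B → Finset B → ℝ := fun q r ↦ if j₀ ≤ S.bl q then
     ρ ^ S.bl q * ((∏ q' ∈ r, fr S (th E (S.bl q)) q') *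
      Real.exp (-(S.nm r / (X / S.N q)))) else 0 with hF
  have hFn : ∀ q r, 0 ≤ F q r := by
    intro q r
    rw [hF]
    dsimp only
    split_ifs
    · have : 0 ≤ ∏ q' ∈ r, fr S (th E (S.bl q)) q' :=
        Finset.prod_nonneg fun x _ ↦ zero_le_one.trans (one_le_fr S _ x)
      positivity
    · exact le_rfl
  have step1 : ∑ b ∈ P.powerset with (∃ q ∈ b, j₀ ≤ S.bl q ∧ ∃ D ⊆ b, q ∉ D ∧
      (∀ q' ∈ D, S.bl q' ≤ th E (S.bl q)) ∧ 2 ^ tb E (S.bl q) ≤ S.nm D),
      Real.exp (-(S.nm b / X)) ≤ ∑ b ∈ P.powerset, ∑ q ∈ b, F q (b.erase q) := by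
    rw [Finset.sum_filter]
    apply Finset.sum_le_sum
    intro b _
    split_ifs with h
    · obtain ⟨q, hq, h1, D, hD, h2, h3, h4⟩ := h
      refine le_trans ?_ (Finset.single_le_sum (f := fun q ↦ F q (b.erase q))
        (fun q _ ↦ hFn q _) hq)
      have hk := key S E hE b D q hD h2 h3 h4
      rw [← hρ] at hk
      simp only [hF, if_pos h1]
      have h5 : (S.nm b : ℝ) / X = S.nm (b.erase q) / (X / S.N q) := by
        rw [Sys.nm, ← Finset.mul_prod_erase b S.N hq, ← Sys.nm]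
        push_cast
        have := hN q
        field_simp
      rw [h5, ← mul_assoc]
      exact le_mul_of_one_le_left (Real.exp_pos _).le hk
    · exact Finset.sum_nonneg fun q _ ↦ hFn q _
  have step2 : ∑ b ∈ P.powerset, ∑ q ∈ b, F q (b.erase q) ≤
      ∑ q ∈ P, ∑ r ∈ P.powerset, F q r := by
    rw [(hdec B P).1 ℝ F, Finset.sum_comm (s := P)]
    apply Finset.sum_le_sum
    intro r _
    exact Finset.sum_le_sum_of_subset_of_nonneg Finset.sdiff_subset fun q _ _ ↦ hFn q r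
  have step3 : ∀ q ∈ P, ∑ r ∈ P.powerset, F q r ≤
      (if j₀ ≤ S.bl q then ρ ^ S.bl q * (1 / (S.N q : ℝ)) else 0) *
        (K ^ 2 * Real.exp (8 * K) * (X * g X)) := by
    intro q _
    by_cases hq : j₀ ≤ S.bl q
    · simp only [hF, if_pos hq]
      rw [← Finset.mul_sum]
      set θ := th E (S.bl q) with hθ
      have hθ1 : 1 ≤ θ := by
        rw [hθ, th]
        exact Nat.one_le_two_pow
      have hNq := hN q
      have hN1 : (1 : ℝ) ≤ S.N q := by
        have := S.two_le q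
        exact_mod_cast (by omega : 1 ≤ S.N q)
      have hY : 0 < X / S.N q := div_pos hX0 hNq
      have h1 := hH.ht (fr S θ) (fun x ↦ ⟨zero_le_one.trans (one_le_fr S _ x), by
        have hc : (0 : ℝ) ≤ Fintype.card k := Nat.cast_nonneg _
        by_cases hx : S.bl x ≤ θ
        · have := (fr_sub_le S θ hθ1 x hx).2
          linarith
        · rw [fr, if_neg hx]
          linarith⟩) (X / S.N q) hY P
      have hgY0 : 0 < g (X / S.N q) := lt_of_lt_of_le zero_lt_one (hH.g_one _)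
      have hgY : g (X / S.N q) ≤ K * g X := hH.g_mono _ _ (div_le_self hX0.le hN1)
      have h2 : ∑ r ∈ P.powerset, (∏ q' ∈ r, fr S θ q') *
          Real.exp (-(S.nm r / (X / S.N q))) ≤
          K * (X / S.N q * 1 * (K * g X)) * Real.exp (8 * K) := by
        refine h1.trans ?_
        have h3 : Real.exp (∑ x ∈ S.upto (X / S.N q), (fr S θ x - 1) / S.N x) ≤
            Real.exp (8 * K) := Real.exp_le_exp.mpr (sum_fr_le S hθ1 hH.che _)
        have h4 : min 1 (X / (S.N q : ℝ)) ≤ 1 := min_le_left _ _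
        have h5 : 0 ≤ min 1 (X / (S.N q : ℝ)) := le_min zero_le_one hY.le
        gcongr
      calc ρ ^ S.bl q * ∑ r ∈ P.powerset, (∏ q' ∈ r, fr S θ q') *
            Real.exp (-(S.nm r / (X / S.N q)))
          ≤ ρ ^ S.bl q * (K * (X / S.N q * 1 * (K * g X)) * Real.exp (8 * K)) :=
            mul_le_mul_of_nonneg_left h2 (by positivity)
        _ = _ := by ring
    · simp only [hF, if_neg hq, Finset.sum_const_zero, zero_mul, le_refl]
  refine step1.trans (step2.trans ((Finset.sum_le_sum step3).trans ?_))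
  rw [← Finset.sum_mul]
  have h1 := sum_rho_le S hH.che ρ hρ0 hρ1 j₀ hj1 P
  calc (∑ q ∈ P, if j₀ ≤ S.bl q then ρ ^ S.bl q * (1 / (S.N q : ℝ)) else 0) *
        (K ^ 2 * Real.exp (8 * K) * (X * g X))
      ≤ (K * (ρ ^ j₀ / (1 - ρ))) * (K ^ 2 * Real.exp (8 * K) * (X * g X)) :=
        mul_le_mul_of_nonneg_right h1 (by positivity)
    _ = C0 * ρ ^ j₀ * (X * g X) := by rw [hC0]; ring
    _ ≤ C0 * (ε / C0) * (X * g X) := by
        apply mul_le_mul_of_nonneg_right _ (by positivity)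
        exact mul_le_mul_of_nonneg_left hρj hC0'.le
    _ = ε * (X * g X) := by
        rw [mul_div_cancel₀ _ hC0'.ne']

/-- **X_EX5**, without hypotheses. -/
theorem x_ex5 : Pool.Agent.Helper11.M3.X_EX5 := x_ex5_of Pool.Agent.Helper22.PP.c_dec

end Pool.Agent.Helper22.M3
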